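import Pool.Agent.H78R3.TSV.Red
import Pool.Agent.ER.GapSys

/-!
# A quartic form that takes a positive value exactly if a system is satisfiable

For a system `S` of constraints let `T` be the bounded system with a long chain of squarings whose
last member `t` is doubly exponentially small.  If `S` is unsatisfiable then `(t x₀)²` is at most
the sum of the squares of the errors of the homogenized constraints (with a factor).
-/

set_option autoImplicit false

namespace Pool.Agent.Q230.QF

open Finset Pool.Agent.NPC Pool.Agent.NPC.ER Pool.Agent.H78R3.TSV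

/-- The bound `4x² + 4s² = x₀²`. -/
def slack4 (N r : ℕ) : QC := ((4, r + 1, r + 1), (4, N + 1 + r, N + 1 + r), (-1, 0, 0))

/-- The number of squarings. -/
def LK (S : List ER.Con) : ℕ := gapK (bsys S).length

/-- The chain of squarings. -/
def chain (L : ℕ) : List ER.Con :=
  (List.range L).map fun j => ER.Con.mul (ev j) (ev j) (ev (j + 1))

/-- The bounded system with the chain. -/
def tsys (S : List ER.Con) : List ER.Con := bsys S ++ chain (LK S)

/-- The homogeneous quadratic system of a system. -/
def gsys (T : List ER.Con) : List QC :=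
  T.map (hcon (svars T)) ++ (List.range (svars T).length).map (slack4 (svars T).length)

/-- The index of the last member of the chain. -/
def aix (S : List ER.Con) : ℕ := ix (svars (tsys S)) (ev (LK S))

theorem mem_chain {L j : ℕ} (h : j < L) : ER.Con.mul (ev j) (ev j) (ev (j + 1)) ∈ chain L :=
  List.mem_map.2 ⟨j, List.mem_range.2 h, rfl⟩

theorem LK_pos (S : List ER.Con) : 0 < LK S := by unfold LK gapK; omega

theorem last_mem (S : List ER.Con) : ev (LK S) ∈ svars (tsys S) := by
  have h := LK_pos S
  have h1 := mem_chain (L := LK S) (j := LK S - 1) (by omega)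
  rw [Nat.sub_add_cancel h] at h1
  exact mem_svars (List.mem_append_right _ h1) (by simp [Con.vars])

theorem one_mem (S : List ER.Con) : ER.Con.one (ev 0) ∈ bsys S := by simp [bsys]

/-- The chain is approximately satisfied. -/
theorem chain_approx {S : List ER.Con} {w : ℕ → ℝ} {e : ℝ} (he : 0 ≤ e) (he8 : e ≤ 1 / 8)
    (h1 : ∀ c ∈ tsys S, |c.err w| ≤ e) :
    ∀ j ≤ LK S, |w (ev j) - (1 / 8) ^ 2 ^ j| ≤ 2 * e := by
  intro j
  induction j with
  | zero =>
    intro _
    have h2 := h1 _ (List.mem_append_left _ (one_mem S))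
    simp only [Con.err] at h2
    rw [abs_le] at h2 ⊢
    norm_num
    constructor <;> linarith [h2.1, h2.2]
  | succ j ih =>
    intro hj
    have h3 := ih (by omega)
    have h2 := h1 _ (List.mem_append_right _ (mem_chain (L := LK S) (j := j) (by omega)))
    simp only [Con.err] at h2
    set a : ℝ := (1 / 8) ^ 2 ^ j with ha
    have ha0 : 0 ≤ a := by positivity
    have ha1 : a ≤ 1 / 8 := by
      rw [ha]
      calc ((1 : ℝ) / 8) ^ 2 ^ j ≤ (1 / 8) ^ 1 :=
            pow_le_pow_of_le_one (by norm_num) (by norm_num) Nat.one_le_two_pow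
        _ = 1 / 8 := pow_one _
    have e1 : ((1 : ℝ) / 8) ^ 2 ^ (j + 1) = a * a := by
      rw [ha, ← pow_add]
      congr 1
      ring
    rw [e1]
    rw [abs_le] at h2 h3 ⊢
    set u := w (ev j) with hu
    have h4 : |(u - a) * (u + a)| ≤ e := by
      rw [abs_mul]
      have h5 : |u - a| ≤ 2 * e := abs_le.2 ⟨by linarith, by linarith⟩
      have h6 : |u + a| ≤ 1 / 2 := abs_le.2 ⟨by linarith, by linarith⟩
      calc |u - a| * |u + a| ≤ (2 * e) * (1 / 2) :=
            mul_le_mul h5 h6 (abs_nonneg _) (by linarith)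
        _ = e := by ring
    rw [abs_le] at h4
    constructor <;> nlinarith [h2.1, h2.2, h4.1, h4.2]

/-- The numerical heart: a bound for the last member of the chain by the errors. -/
theorem core_num {S : List ER.Con} (hS : ¬ Sat S) {w : ℕ → ℝ} {e : ℝ} (he : 0 ≤ e)
    (h1 : ∀ c ∈ tsys S, |c.err w| ≤ e) (h2 : ∀ i ∈ svars (tsys S), 4 * w i ^ 2 - 1 ≤ e) :
    w (ev (LK S)) ^ 2 ≤ 64 * e ^ 2 := by
  rcases le_or_gt e (1 / 8) with he8 | he8
  · have hch := chain_approx he he8 h1 (LK S) le_rfl
    have hgap : 1 < e * 2 ^ 2 ^ LK S := by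
      by_contra hcon
      rw [not_lt] at hcon
      apply hS
      have hw : ∀ i ∈ svars (bsys S), |w i| ≤ 1 := by
        intro i hi
        have hi' : i ∈ svars (tsys S) := by
          unfold svars at hi ⊢
          rw [List.mem_flatMap] at hi ⊢
          obtain ⟨c, hc, hi⟩ := hi
          exact ⟨c, List.mem_append_left _ hc, hi⟩
        have h3 := h2 i hi'
        rw [abs_le_one_iff_mul_self_le_one]
        nlinarith
      obtain ⟨w', hw'⟩ := holds_of_approx hw (fun c hc => by
        have h3 := h1 c (List.mem_append_left _ hc)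
        have h4 : (0 : ℝ) ≤ 2 ^ 2 ^ gapK (bsys S).length := by positivity
        exact (mul_le_mul_of_nonneg_right h3 h4).trans hcon)
      exact sat_of_bsys hw'
    have ha : ((1 : ℝ) / 8) ^ 2 ^ LK S ≤ e := by
      have h3 : ((1 : ℝ) / 8) ^ 2 ^ LK S ≤ (1 / 2) ^ 2 ^ LK S :=
        pow_le_pow_left₀ (by norm_num) (by norm_num) _
      have h4 : ((1 : ℝ) / 2) ^ 2 ^ LK S ≤ e := by
        rw [one_div, inv_pow, inv_le_iff_one_le_mul₀ (by positivity)]
        exact hgap.le
      linarith
    have ha0 : (0 : ℝ) ≤ (1 / 8) ^ 2 ^ LK S := by positivity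
    rw [abs_le] at hch
    have h5 : |w (ev (LK S))| ≤ 3 * e := abs_le.2 ⟨by linarith [hch.1], by linarith [hch.2]⟩
    rw [← sq_abs]
    have h6 : |w (ev (LK S))| ^ 2 ≤ (3 * e) ^ 2 := pow_le_pow_left₀ (abs_nonneg _) h5 2
    nlinarith
  · have h3 := h2 _ (last_mem S)
    set u := w (ev (LK S)) with hu
    rcases le_or_gt (u ^ 2) 1 with h4 | h4
    · nlinarith
    · have h5 : u ^ 2 ≤ e := by nlinarith
      nlinarith

theorem length_gsys (T : List ER.Con) : (gsys T).length = T.length + (svars T).length := by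
  simp [gsys]

theorem le_length_gsys (S : List ER.Con) : 64 ≤ (gsys (tsys S)).length := by
  rw [length_gsys]
  have h1 : (tsys S).length = (bsys S).length + LK S := by simp [tsys, chain]
  have h2 : 1 + bK S ≤ (bsys S).length := by
    simp [bsys]
    omega
  unfold bK at h2
  have h3 : LK S = 11 * (bsys S).length + 7 := rfl
  omega

theorem gev_hcon {V : List ℕ} {x w : ℕ → ℝ} (hw : ∀ i, x (ix V i) = x 0 * w i) (c : ER.Con) :
    gev x x (hcon V c) = 2 * x 0 ^ 2 * c.err w := by
  cases c with
  | one i =>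
    simp only [gev, tev, bev, hcon, Con.err, hw]
    push_cast
    ring
  | add i j k =>
    simp only [gev, tev, bev, hcon, Con.err, hw]
    push_cast
    ring
  | mul i j k =>
    simp only [gev, tev, bev, hcon, Con.err, hw]
    push_cast
    ring

theorem gsys_ok (T : List ER.Con) : ∀ g ∈ gsys T, GOk (hn T) g := by
  intro g hg
  unfold gsys at hg
  rw [List.mem_append, List.mem_map, List.mem_map] at hg
  rcases hg with ⟨c, hc, rfl⟩ | ⟨r, hr, rfl⟩
  · exact hsys_ok T _ (List.mem_append_left _ (List.mem_map.2 ⟨c, hc, rfl⟩))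
  · have := List.mem_range.1 hr
    refine ⟨⟨by simp [slack4], ?_, ?_⟩, ⟨by simp [slack4], ?_, ?_⟩, ⟨by simp [slack4], ?_, ?_⟩⟩ <;>
        simp only [slack4, hn] <;> omega

theorem aix_lt (S : List ER.Con) : aix S < hn (tsys S) := by
  have h := List.idxOf_lt_length_of_mem (last_mem S)
  unfold aix ix hn
  omega

/-- **Unsatisfiable systems.** -/
theorem unsat_core {S : List ER.Con} (hS : ¬ Sat S) (x : ℕ → ℝ) :
    bev x x (aix S, 0) * bev x x (aix S, 0) ≤ ((gsys (tsys S)).length : ℝ) *
      ((gsys (tsys S)).map (fun g => gev x x g * gev x x g)).sum := by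
  set G := gsys (tsys S) with hG
  set V := svars (tsys S) with hV
  have hm : (64 : ℝ) ≤ (G.length : ℝ) := by exact_mod_cast le_length_gsys S
  set E := (G.map (fun g => gev x x g * gev x x g)).sum with hE
  have hnn : ∀ r ∈ G.map (fun g => gev x x g * gev x x g), 0 ≤ r := by
    intro r hr
    obtain ⟨g, -, rfl⟩ := List.mem_map.1 hr
    exact mul_self_nonneg _
  have hE0 : 0 ≤ E := List.sum_nonneg hnn
  have hle : ∀ g ∈ G, gev x x g * gev x x g ≤ E := fun g hg =>
    List.single_le_sum hnn _ (List.mem_map.2 ⟨g, hg, rfl⟩)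
  rcases eq_or_ne (x 0) 0 with h0 | h0
  · have h1 : bev x x (aix S, 0) = 0 := by simp [bev, h0]
    rw [h1]
    simp only [mul_zero]
    positivity
  have hx2 : 0 < x 0 ^ 2 := by positivity
  set w : ℕ → ℝ := fun i => x (ix V i) / x 0 with hw
  have hxw : ∀ i, x (ix V i) = x 0 * w i := fun i => by
    simp only [hw]
    field_simp
  set e : ℝ := Real.sqrt E / (2 * x 0 ^ 2) with he
  have he0 : 0 ≤ e := by positivity
  have hEe : Real.sqrt E = 2 * x 0 ^ 2 * e := by
    rw [he]
    field_simp
  have hE2 : E = (2 * x 0 ^ 2 * e) ^ 2 := by rw [← hEe, Real.sq_sqrt hE0]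
  have habs : ∀ g ∈ G, |gev x x g| ≤ 2 * x 0 ^ 2 * e := by
    intro g hg
    rw [← hEe]
    apply Real.abs_le_sqrt
    rw [sq]
    exact hle g hg
  have h1 : ∀ c ∈ tsys S, |c.err w| ≤ e := by
    intro c hc
    have h2 := habs (hcon V c) (List.mem_append_left _ (List.mem_map.2 ⟨c, hc, rfl⟩))
    rw [gev_hcon hxw, abs_mul, abs_of_pos (by positivity : (0 : ℝ) < 2 * x 0 ^ 2)] at h2
    exact le_of_mul_le_mul_left h2 (by positivity)
  have h2 : ∀ i ∈ svars (tsys S), 4 * w i ^ 2 - 1 ≤ e := by
    intro i hi
    have hi' := List.idxOf_lt_length_of_mem hi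
    have h3 := habs (slack4 V.length (V.idxOf i)) (List.mem_append_right _
      (List.mem_map.2 ⟨_, List.mem_range.2 hi', rfl⟩))
    have h4 : x (V.idxOf i + 1) = x 0 * w i := hxw i
    simp only [gev, tev, bev, slack4, h4] at h3
    rw [abs_le] at h3
    have h5 := h3.2
    push_cast at h5
    have h6 : 2 * x 0 ^ 2 * (4 * w i ^ 2 - 1) ≤ 2 * x 0 ^ 2 * e := by
      nlinarith [sq_nonneg (x (V.length + 1 + V.idxOf i))]
    exact le_of_mul_le_mul_left h6 (by positivity)
  have h3 := core_num hS he0 h1 h2
  have h4 : bev x x (aix S, 0) = 2 * x 0 ^ 2 * w (ev (LK S)) := by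
    have : x (aix S) = x 0 * w (ev (LK S)) := hxw _
    simp only [bev, this]
    ring
  rw [h4, hE2]
  have h5 : 2 * x 0 ^ 2 * w (ev (LK S)) * (2 * x 0 ^ 2 * w (ev (LK S))) =
      (2 * x 0 ^ 2) ^ 2 * w (ev (LK S)) ^ 2 := by ring
  have h6 : (G.length : ℝ) * (2 * x 0 ^ 2 * e) ^ 2 = (2 * x 0 ^ 2) ^ 2 * (G.length * e ^ 2) := by ring
  rw [h5, h6]
  apply mul_le_mul_of_nonneg_left _ (by positivity)
  have : 64 * e ^ 2 ≤ G.length * e ^ 2 := mul_le_mul_of_nonneg_right hm (by positivity)
  linarith

/-- **Satisfiable systems.** -/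
theorem sat_core {S : List ER.Con} (hS : Sat S) :
    ∃ x : ℕ → ℝ, x 0 = 1 ∧ 0 < x (aix S) ∧ ∀ g ∈ gsys (tsys S), gev x x g = 0 := by
  obtain ⟨w₀, hw₀, hc₀⟩ := bsys_of_sat hS
  have hev := ev_value hc₀
  set w : ℕ → ℝ := fun i => if i % 4 = 1 then (1 / 8) ^ 2 ^ (i / 4) else w₀ i with hw
  have hwev : ∀ j, w (ER.ev j) = (1 / 8) ^ 2 ^ j := by
    intro j
    have e1 : ER.ev j % 4 = 1 := by unfold ER.ev; omega
    have e2 : ER.ev j / 4 = j := by unfold ER.ev; omega
    simp only [hw, e1, e2, if_true]
  have hwe : ∀ j ≤ bK S, w (ER.ev j) = w₀ (ER.ev j) := fun j hj => by rw [hwev, hev j hj]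
  have hw2 : ∀ i, w (2 * i) = w₀ (2 * i) := fun i => by
    simp only [hw]
    rw [if_neg (by omega)]
  have hw3 : ∀ t, w (4 * t + 3) = w₀ (4 * t + 3) := fun t => by
    simp only [hw]
    rw [if_neg (by omega)]
  have hwb : ∀ i, |w i| ≤ 1 / 8 := by
    intro i
    by_cases h : i % 4 = 1
    · simp only [hw, if_pos h]
      rw [abs_of_pos (by positivity)]
      calc ((1 : ℝ) / 8) ^ 2 ^ (i / 4) ≤ (1 / 8) ^ 1 :=
            pow_le_pow_of_le_one (by norm_num) (by norm_num) Nat.one_le_two_pow
        _ = 1 / 8 := pow_one _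
    · simp only [hw, if_neg h]
      exact hw₀ i
  have hold : ∀ c ∈ tsys S, c.HoldsC (1 / 8) w := by
    intro c hc
    unfold tsys at hc
    rw [List.mem_append] at hc
    rcases hc with hc | hc
    · have h0 := hc₀ c hc
      unfold bsys at hc
      rw [List.mem_cons, List.mem_append, List.mem_map, List.mem_flatMap] at hc
      rcases hc with rfl | ⟨j, hj, rfl⟩ | ⟨⟨c', t⟩, hmem, hc⟩
      · simp only [Con.HoldsC, hwev]
        norm_num
      · simp only [Con.HoldsC, hwev, ← pow_add]
        congr 1
        ring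
      · simp only at hc
        cases c' with
        | one i =>
          simp only [bcon, List.mem_cons, List.not_mem_nil, or_false] at hc
          rcases hc with rfl | rfl
          · simpa only [Con.HoldsC, hw3] using h0
          · simpa only [Con.HoldsC, hw2, hw3, hwe _ le_rfl] using h0
        | add i j k =>
          simp only [bcon, List.mem_cons, List.not_mem_nil, or_false] at hc
          subst hc
          simpa only [Con.HoldsC, hw2] using h0
        | mul i j k =>
          simp only [bcon, List.mem_cons, List.not_mem_nil, or_false] at hc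
          rcases hc with rfl | rfl
          · simpa only [Con.HoldsC, hw2, hw3] using h0
          · simpa only [Con.HoldsC, hw2, hw3, hwe _ le_rfl] using h0
    · unfold chain at hc
      rw [List.mem_map] at hc
      obtain ⟨j, -, rfl⟩ := hc
      simp only [Con.HoldsC, hwev, ← pow_add]
      congr 1
      ring
  set V := svars (tsys S) with hV
  set N := V.length with hN
  let x : ℕ → ℝ := fun i => if i = 0 then 1 else if i < N + 1 then w (V.getD (i - 1) 0) else
    Real.sqrt (1 / 4 - w (V.getD (i - (N + 1)) 0) ^ 2)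
  have x0 : x 0 = 1 := by simp [x]
  have x1 : ∀ r < N, x (r + 1) = w (V.getD r 0) := by
    intro r hr
    simp only [x]
    rw [if_neg (by omega), if_pos (by omega)]
    simp
  have x2 : ∀ r < N, x (N + 1 + r) = Real.sqrt (1 / 4 - w (V.getD r 0) ^ 2) := by
    intro r hr
    simp only [x]
    rw [if_neg (by omega), if_neg (by omega)]
    congr 5
    omega
  have xi : ∀ i ∈ V, x (ix V i) = w i := by
    intro i hi
    have h1 := List.idxOf_lt_length_of_mem hi
    unfold ix
    rw [x1 _ h1, List.getD_eq_getElem _ _ h1, List.getElem_idxOf h1]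
  refine ⟨x, x0, ?_, ?_⟩
  · have h1 := xi _ (last_mem S)
    unfold aix
    rw [h1, hwev]
    positivity
  · intro g hg
    unfold gsys at hg
    rw [List.mem_append, List.mem_map, List.mem_map] at hg
    rcases hg with ⟨c, hcT, rfl⟩ | ⟨r, hr, rfl⟩
    · have hh := hold c hcT
      cases c with
      | one i =>
        have e1 := xi i (mem_svars hcT (by simp [Con.vars]))
        simp only [Con.HoldsC] at hh
        simp only [gev, tev, bev, hcon]
        rw [← hV, e1, x0, hh]
        push_cast
        norm_num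
      | add i j k =>
        have e1 := xi i (mem_svars hcT (by simp [Con.vars]))
        have e2 := xi j (mem_svars hcT (by simp [Con.vars]))
        have e3 := xi k (mem_svars hcT (by simp [Con.vars]))
        simp only [Con.HoldsC] at hh
        simp only [gev, tev, bev, hcon]
        rw [← hV, e1, e2, e3, x0, ← hh]
        push_cast
        ring
      | mul i j k =>
        have e1 := xi i (mem_svars hcT (by simp [Con.vars]))
        have e2 := xi j (mem_svars hcT (by simp [Con.vars]))
        have e3 := xi k (mem_svars hcT (by simp [Con.vars]))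
        simp only [Con.HoldsC] at hh
        simp only [gev, tev, bev, hcon]
        rw [← hV, e1, e2, e3, x0, ← hh]
        push_cast
        ring
    · have hr := List.mem_range.1 hr
      simp only [gev, tev, bev, slack4]
      rw [← hV, ← hN, x1 r hr, x2 r hr, x0]
      push_cast
      have h1 : 0 ≤ 1 / 4 - w (V.getD r 0) ^ 2 := by
        have := hwb (V.getD r 0)
        have h2 : w (V.getD r 0) ^ 2 ≤ (1 / 8) ^ 2 := by
          rw [← sq_abs]
          exact pow_le_pow_left₀ (abs_nonneg _) this 2
        have h3 : ((1 : ℝ) / 8) ^ 2 ≤ 1 / 4 := by norm_num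
        linarith
      have h2 := Real.mul_self_sqrt h1
      nlinarith

end Pool.Agent.Q230.QF
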